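import Pool.Agent.Helper37.SN.Stmts

set_option autoImplicit false

namespace Pool.Agent.Helper37.SN

open MeasureTheory Finset
open scoped ENNReal Classical

namespace GG57

theorem cd : ContDiff ℝ (⊤ : ℕ∞) gg := by
  unfold gg
  exact (Real.smoothTransition.contDiff.comp (contDiff_const.sub contDiff_id)).mul
    (Real.smoothTransition.contDiff.comp (contDiff_const.add contDiff_id))

theorem z (y : ℝ) (hy : 2 ≤ |y|) : gg y = 0 := by
  unfold gg
  rcases le_abs.1 hy with h | h
  · rw [Real.smoothTransition.zero_of_nonpos (show 2 - y ≤ 0 by linarith), zero_mul]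
  · rw [Real.smoothTransition.zero_of_nonpos (show 2 + y ≤ 0 by linarith), mul_zero]

theorem cs : HasCompactSupport gg := by
  refine HasCompactSupport.intro (isCompact_Icc (a := (-2 : ℝ)) (b := 2)) ?_
  intro y hy
  apply z
  rw [Set.mem_Icc, not_and_or] at hy
  rcases hy with h | h
  · exact le_abs.2 (Or.inr (by linarith))
  · exact le_abs.2 (Or.inl (by linarith))

theorem csi (i : ℕ) : HasCompactSupport (iteratedDeriv i gg) := by
  induction i with
  | zero => rw [iteratedDeriv_zero]; exact cs
  | succ n ih => rw [iteratedDeriv_succ]; exact ih.deriv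

theorem bd (i : ℕ) : ∃ C : ℝ, ∀ y, |iteratedDeriv i gg y| ≤ C := by
  have h := (cd.continuous_iteratedDeriv i (by exact_mod_cast le_top)).bounded_above_of_compact_support
    (csi i)
  exact h

end GG57

open GG57 in
theorem st_GG : ST_GG := by
  refine ⟨cd, ?_, z, ?_, ?_⟩
  · intro y hy
    rw [abs_le] at hy
    unfold gg
    rw [Real.smoothTransition.one_of_one_le (show 1 ≤ 2 - y by linarith),
      Real.smoothTransition.one_of_one_le (show 1 ≤ 2 + y by linarith), mul_one]
  · intro y
    unfold gg
    exact ⟨mul_nonneg (Real.smoothTransition.nonneg _) (Real.smoothTransition.nonneg _),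
      mul_le_one₀ (Real.smoothTransition.le_one _) (Real.smoothTransition.nonneg _)
        (Real.smoothTransition.le_one _)⟩
  · intro k
    choose c hc using bd
    refine ⟨1 + ∑ i ∈ range (k + 1), |c i|, ?_, ?_, z, ?_⟩
    · have : 0 ≤ ∑ i ∈ range (k + 1), |c i| := sum_nonneg fun _ _ => abs_nonneg _
      linarith
    · exact cd.of_le (by exact_mod_cast le_top)
    · intro i hi y
      have h1 : |c i| ≤ ∑ i ∈ range (k + 1), |c i| :=
        single_le_sum (f := fun i => |c i|) (fun _ _ => abs_nonneg _)
          (mem_range.2 (by omega))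
      have h2 := hc i y
      have h3 := le_abs_self (c i)
      linarith

end Pool.Agent.Helper37.SN
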